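import Pool.Agent.Run7.h96.IX.Stm

set_option autoImplicit false

open Set

namespace Run7.h662.IX

open Run7.h96.IX

theorem pf (f : (ℝ × ℝ × ℝ) →L[ℝ] ℝ) (p : ℝ × ℝ × ℝ) :
    f p = f (1, 0, 0) * p.1 + f (0, 1, 0) * p.2.1 + f (0, 0, 1) * p.2.2 := by
  have h : p = p.1 • ((1 : ℝ), (0 : ℝ), (0 : ℝ)) + p.2.1 • ((0 : ℝ), (1 : ℝ), (0 : ℝ))
      + p.2.2 • ((0 : ℝ), (0 : ℝ), (1 : ℝ)) := by
    obtain ⟨a, b, c⟩ := p
    simp
  conv_lhs => rw [h]
  rw [map_add, map_add, map_smul, map_smul, map_smul, smul_eq_mul, smul_eq_mul, smul_eq_mul]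
  ring

theorem t_DUAL : S_DUAL := by
  intro D L l γ v F hD0 hD1 hL hL2 hl0 hl1 hγ hv0 hv2 hvF hF
  obtain ⟨δ, hδ0, hδ1, hδ2⟩ : ∃ δ : ℝ, 0 < δ ∧ δ ≤ γ / 8 ∧ δ ≤ 1 / 2 :=
    ⟨min (γ / 8) (1 / 2), lt_min (by linarith) (by norm_num), min_le_left _ _, min_le_right _ _⟩
  have hFv : 0 < δ * (F - v) := mul_pos hδ0 (by linarith)
  obtain ⟨η, hη0, hη1, hη2, hη3⟩ : ∃ η : ℝ, 0 < η ∧ η ≤ γ / 8 ∧ η ≤ δ * (F - v) / 4 ∧
      η ≤ v / 2 :=
    ⟨min (γ / 8) (min (δ * (F - v) / 4) (v / 2)),
      lt_min (by linarith) (lt_min (by linarith) (by linarith)), min_le_left _ _,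
      (min_le_right _ _).trans (min_le_left _ _), (min_le_right _ _).trans (min_le_right _ _)⟩
  refine ⟨η, hη0, fun η' hη' => ?_⟩
  by_contra hcon
  have hcon' : ∀ p ∈ convexHull ℝ D, ¬ (v - γ + η < p.1 ∧ p.2.1 < v - η ∧ |p.2.2 - l| < η') :=
    fun p hp h => hcon ⟨p, hp, h⟩
  -- the open convex set
  have hO1 : IsOpen (Prod.fst ⁻¹' (Ioi (v - γ + η)) ∩
      ((fun p : ℝ × ℝ × ℝ => p.2.1) ⁻¹' (Iio (v - η)) ∩
        (fun p : ℝ × ℝ × ℝ => p.2.2) ⁻¹' (Ioo (l - η') (l + η')))) :=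
    (isOpen_Ioi.preimage continuous_fst).inter
      ((isOpen_Iio.preimage (continuous_fst.comp continuous_snd)).inter
        (isOpen_Ioo.preimage (continuous_snd.comp continuous_snd)))
  have hO2 : Convex ℝ ((Prod.fst ⁻¹' (Ioi (v - γ + η)) : Set (ℝ × ℝ × ℝ)) ∩
      ((fun p : ℝ × ℝ × ℝ => p.2.1) ⁻¹' (Iio (v - η)) ∩
        (fun p : ℝ × ℝ × ℝ => p.2.2) ⁻¹' (Ioo (l - η') (l + η')))) :=
    ((convex_Ioi (v - γ + η)).linear_preimage (LinearMap.fst ℝ ℝ (ℝ × ℝ))).inter
      (((convex_Iio (v - η)).linear_preimage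
        ((LinearMap.fst ℝ ℝ ℝ).comp (LinearMap.snd ℝ ℝ (ℝ × ℝ)))).inter
        ((convex_Ioo (l - η') (l + η')).linear_preimage
          ((LinearMap.snd ℝ ℝ ℝ).comp (LinearMap.snd ℝ ℝ (ℝ × ℝ)))))
  have hdisj : Disjoint (Prod.fst ⁻¹' (Ioi (v - γ + η)) ∩
      ((fun p : ℝ × ℝ × ℝ => p.2.1) ⁻¹' (Iio (v - η)) ∩
        (fun p : ℝ × ℝ × ℝ => p.2.2) ⁻¹' (Ioo (l - η') (l + η')))) (convexHull ℝ D) := by
    rw [Set.disjoint_left]
    rintro p ⟨h1, h2, h3⟩ hp
    have h3' : l - η' < p.2.2 ∧ p.2.2 < l + η' := h3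
    refine hcon' p hp ⟨h1, h2, ?_⟩
    rw [abs_lt]
    constructor <;> linarith [h3'.1, h3'.2]
  obtain ⟨f, u, hfO, hfD⟩ := geometric_hahn_banach_open hO2 hO1 (convex_convexHull ℝ D) hdisj
  set A := f (1, 0, 0) with hA
  set q := f (0, 1, 0) with hq
  set C := f (0, 0, 1) with hC
  have hf : ∀ p : ℝ × ℝ × ℝ, f p = A * p.1 + q * p.2.1 + C * p.2.2 := pf f
  have hO : ∀ x y : ℝ, v - γ + η < x → y < v - η → A * x + q * y + C * l < u := by
    intro x y hx hy
    have h := hfO (x, y, l) ⟨hx, hy, by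
      change l - η' < l ∧ l < l + η'
      constructor <;> linarith⟩
    rw [hf] at h
    exact h
  have hDD : ∀ d ∈ D, u ≤ A * d.1 + q * d.2.1 + C * d.2.2 := by
    intro d hd
    have h := hfD d (subset_convexHull ℝ D hd)
    rw [hf] at h
    exact h
  -- signs
  have hA0 : A ≤ 0 := by
    by_contra h
    push Not at h
    have h1 := hO (v - γ + η + 1 + |u - (A * (v - γ + η + 1) + q * (v - η - 1) + C * l)| / A)
      (v - η - 1) (by
        have : 0 ≤ |u - (A * (v - γ + η + 1) + q * (v - η - 1) + C * l)| / A := by positivity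
        linarith) (by linarith)
    have h2 : A * (v - γ + η + 1 + |u - (A * (v - γ + η + 1) + q * (v - η - 1) + C * l)| / A)
        = A * (v - γ + η + 1) + |u - (A * (v - γ + η + 1) + q * (v - η - 1) + C * l)| := by
      field_simp
    rw [h2] at h1
    have h3 := le_abs_self (u - (A * (v - γ + η + 1) + q * (v - η - 1) + C * l))
    linarith
  have hq0 : 0 ≤ q := by
    by_contra h
    push Not at h
    have h1 := hO (v - γ + η + 1)
      (v - η - 1 + |u - (A * (v - γ + η + 1) + q * (v - η - 1) + C * l)| / q) (by linarith) (by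
        have : |u - (A * (v - γ + η + 1) + q * (v - η - 1) + C * l)| / q ≤ 0 :=
          div_nonpos_of_nonneg_of_nonpos (abs_nonneg _) h.le
        linarith)
    have h2 : q * (v - η - 1 + |u - (A * (v - γ + η + 1) + q * (v - η - 1) + C * l)| / q)
        = q * (v - η - 1) + |u - (A * (v - γ + η + 1) + q * (v - η - 1) + C * l)| := by
      have hne : q ≠ 0 := h.ne
      field_simp
    rw [h2] at h1
    have h3 := le_abs_self (u - (A * (v - γ + η + 1) + q * (v - η - 1) + C * l))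
    linarith
  -- the corner
  have hcorner : A * (v - γ + η) + q * (v - η) + C * l ≤ u := by
    apply le_of_forall_pos_le_add
    intro ε hε
    have hpos : 0 < q - A + 1 := by linarith
    have hτ : 0 < ε / (q - A + 1) := by positivity
    have h1 := hO (v - γ + η + ε / (q - A + 1)) (v - η - ε / (q - A + 1)) (by linarith)
      (by linarith)
    have h2 : (q - A) * (ε / (q - A + 1)) ≤ ε := by
      have h3 : (q - A + 1) * (ε / (q - A + 1)) = ε := by field_simp
      nlinarith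
    nlinarith
  have hstar : ∀ d ∈ D, A * (v - γ + η) + q * (v - η) + C * l
      ≤ A * d.1 + q * d.2.1 + C * d.2.2 := fun d hd => hcorner.trans (hDD d hd)
  rcases hA0.lt_or_eq with hAneg | hAz
  · -- the main case
    obtain ⟨s, hs⟩ : ∃ s : ℝ, s = q / (-A) := ⟨_, rfl⟩
    obtain ⟨r, hr⟩ : ∃ r : ℝ, r = (-C) / (-A) := ⟨_, rfl⟩
    have hA' : 0 < -A := by linarith
    have hs0 : 0 ≤ s := by
      rw [hs]
      positivity
    have hqs : q = s * (-A) := by
      rw [hs, div_mul_cancel₀ _ hA'.ne']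
    have hCr : C = -(r * (-A)) := by
      rw [hr, div_mul_cancel₀ _ hA'.ne', neg_neg]
    have hLs : L s r ≤ (1 - s) * v - γ + (1 + s) * η + r * l := by
      apply le_of_forall_pos_le_add
      intro ε hε
      obtain ⟨d, hd, hdL⟩ := hL s r ε hs0 hε
      have h1 := hstar d hd
      rw [hqs, hCr] at h1
      have h2 : (-A) * (d.1 - s * d.2.1 + r * d.2.2)
          ≤ (-A) * ((v - γ + η) - s * (v - η) + r * l) := by linarith
      have h3 := le_of_mul_le_mul_left h2 hA'
      linarith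
    have hLl : l * r ≤ L s r := by
      obtain ⟨h1, h2⟩ := hL2 s r hs0
      have h3 := mul_le_mul_of_nonneg_left h2 hl0.le
      have h4 := mul_nonneg (sub_nonneg.2 hl1.le) h1
      linarith
    rcases le_or_gt s (1 - δ) with hsδ | hsδ
    · have h1 := hF s r hs0 (by linarith)
      have h2 : (1 - s) * (F - v) ≤ (1 + s) * η := by linarith
      have h3 : δ * (F - v) ≤ (1 - s) * (F - v) :=
        mul_le_mul_of_nonneg_right (by linarith) (by linarith)
      have h4 : (1 + s) * η ≤ 2 * η := mul_le_mul_of_nonneg_right (by linarith) hη0.le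
      linarith
    · rcases lt_or_ge s 1 with hs1 | hs1
      · have h1 : (1 - s) * v ≤ δ * 2 :=
          mul_le_mul (by linarith) hv2 hv0.le hδ0.le
        have h2 : (1 + s) * η ≤ 2 * η := mul_le_mul_of_nonneg_right (by linarith) hη0.le
        linarith
      · have h1 : 0 < v - η := by linarith
        have h2 : 1 * (v - η) ≤ s * (v - η) := mul_le_mul_of_nonneg_right hs1 h1.le
        linarith
  · -- the case of a vanishing first coefficient
    have h0 := hstar _ hD0
    have h1 := hstar _ hD1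
    rw [hAz] at h0 h1
    simp only [zero_mul, mul_zero, zero_add, add_zero, mul_one] at h0 h1
    have hvη : 0 < v - η := by linarith
    have hqv : 0 ≤ q * (v - η) := mul_nonneg hq0 hvη.le
    have hC0 : 0 ≤ C := by
      by_contra h
      push Not at h
      have h2 : C * (1 - l) < 0 := mul_neg_of_neg_of_pos h (by linarith)
      linarith
    have hCl : 0 ≤ C * l := mul_nonneg hC0 hl0.le
    have hqz : q = 0 := by
      have h2 : q * (v - η) = 0 := le_antisymm (by linarith) hqv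
      rcases mul_eq_zero.1 h2 with h3 | h3
      · exact h3
      · linarith
    have hCz : C = 0 := by
      have h2 : C * l = 0 := le_antisymm (by linarith) hCl
      rcases mul_eq_zero.1 h2 with h3 | h3
      · exact h3
      · linarith
    have h2 := hO (v - γ + η + 1) (v - η - 1) (by linarith) (by linarith)
    have h3 := hDD _ hD0
    rw [hAz, hqz, hCz] at h2 h3
    simp only [zero_mul, mul_zero, add_zero] at h2 h3
    linarith

end Run7.h662.IX
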